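import Mathlib

/-!
# The sequences generated by `2 k + 2` and `3 k + 3` are not always injective

`s a 1 = a`, `s a (2 k) = 2 s a k + 2`, `s a (2 k + 1) = 3 s a k + 3` for `k ≥ 1`.  The question is
whether `s a` is injective on the positive integers for every integer `a` with `a < -3` or `a > 2`.
It is not: there are collisions for values of `a` on both sides, for instance
`s (-4) 51 = s (-4) 128 = -258` and `s 3 2043 = s 3 21504 = 177150`.
-/

set_option autoImplicit false

namespace Pool.Agent.Results.MP_6850eb_nt.NotInjective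

/-- A concrete function with the recursion of the problem (used in the proof only). -/
def s (a : ℤ) (n : ℕ) : ℤ :=
  if n ≤ 1 then a
  else if n % 2 = 0 then 2 * s a (n / 2) + 2
  else 3 * s a (n / 2) + 3
termination_by n
decreasing_by all_goals omega

lemma s_one (a : ℤ) : s a 1 = a := by
  rw [s]; simp

lemma s_even (a : ℤ) (k : ℕ) (hk : 1 ≤ k) : s a (2 * k) = 2 * s a k + 2 := by
  rw [s, if_neg (by omega), if_pos (by omega), show 2 * k / 2 = k by omega]

lemma s_odd (a : ℤ) (k : ℕ) (hk : 1 ≤ k) : s a (2 * k + 1) = 3 * s a k + 3 := by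
  rw [s, if_neg (by omega), if_neg (by omega), show (2 * k + 1) / 2 = k by omega]

lemma unique (f : ℤ → ℕ → ℤ) (h1 : ∀ a : ℤ, f a 1 = a)
    (h2 : ∀ (a : ℤ) (k : ℕ), 1 ≤ k → f a (2 * k) = 2 * f a k + 2)
    (h3 : ∀ (a : ℤ) (k : ℕ), 1 ≤ k → f a (2 * k + 1) = 3 * f a k + 3) (a : ℤ) :
    ∀ n : ℕ, 1 ≤ n → f a n = s a n := by
  intro n
  induction n using Nat.strong_induction_on with
  | _ n ih =>
    intro hn
    rcases Nat.lt_or_ge 1 n with h | h
    · rcases Nat.even_or_odd' n with ⟨k, rfl | rfl⟩
      · rw [h2 a k (by omega), s_even a k (by omega), ih k (by omega) (by omega)]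
      · rw [h3 a k (by omega), s_odd a k (by omega), ih k (by omega) (by omega)]
    · obtain rfl : n = 1 := by omega
      rw [h1, s_one]

/-- There is a function `s` with the recursion of the problem, and for every such function the
answer to the question is negative, on both sides: `s a` is not injective on the positive integers
for all `a` with `-11 ≤ a ≤ -4` and for all `a` with `3 ≤ a ≤ 7`. -/
theorem result :
    (∃ s : ℤ → ℕ → ℤ, (∀ a : ℤ, s a 1 = a) ∧
      (∀ (a : ℤ) (k : ℕ), 1 ≤ k → s a (2 * k) = 2 * s a k + 2) ∧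
      (∀ (a : ℤ) (k : ℕ), 1 ≤ k → s a (2 * k + 1) = 3 * s a k + 3)) ∧
    ∀ s : ℤ → ℕ → ℤ, (∀ a : ℤ, s a 1 = a) →
      (∀ (a : ℤ) (k : ℕ), 1 ≤ k → s a (2 * k) = 2 * s a k + 2) →
      (∀ (a : ℤ) (k : ℕ), 1 ≤ k → s a (2 * k + 1) = 3 * s a k + 3) →
      (¬ ∀ a : ℤ, a < -3 ∨ 2 < a → Set.InjOn (s a) (Set.Ici 1)) ∧
      (∀ a : ℤ, -11 ≤ a → a < -3 → ¬ Set.InjOn (s a) (Set.Ici 1)) ∧
      (∀ a : ℤ, 2 < a → a ≤ 7 → ¬ Set.InjOn (s a) (Set.Ici 1)) := by
  refine ⟨⟨s, s_one, s_even, s_odd⟩, ?_⟩
  intro f f1 f2 f3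
  have key : ∀ a : ℤ, ∀ m n : ℕ, 1 ≤ m → 1 ≤ n → m ≠ n → s a m = s a n →
      ¬ Set.InjOn (f a) (Set.Ici 1) := by
    intro a m n hm hn hmn h hi
    refine hmn (hi hm hn ?_)
    rw [unique f f1 f2 f3 a m hm, unique f f1 f2 f3 a n hn, h]
  have hneg : ∀ a : ℤ, -11 ≤ a → a < -3 → ¬ Set.InjOn (f a) (Set.Ici 1) := by
    intro a h1 h2
    interval_cases a
    · exact key _ 2003 8384 (by norm_num) (by norm_num) (by norm_num) (by decide +kernel)
    · exact key _ 239 1088 (by norm_num) (by norm_num) (by norm_num) (by decide +kernel)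
    · exact key _ 207 1024 (by norm_num) (by norm_num) (by norm_num) (by decide +kernel)
    · exact key _ 251 1280 (by norm_num) (by norm_num) (by norm_num) (by decide +kernel)
    · exact key _ 1855 10512 (by norm_num) (by norm_num) (by norm_num) (by decide +kernel)
    · exact key _ 367 2112 (by norm_num) (by norm_num) (by norm_num) (by decide +kernel)
    · exact key _ 143 448 (by norm_num) (by norm_num) (by norm_num) (by decide +kernel)
    · exact key _ 51 128 (by norm_num) (by norm_num) (by norm_num) (by decide +kernel)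
  have hpos : ∀ a : ℤ, 2 < a → a ≤ 7 → ¬ Set.InjOn (f a) (Set.Ici 1) := by
    intro a h1 h2
    interval_cases a
    · exact key _ 2043 21504 (by norm_num) (by norm_num) (by norm_num) (by decide +kernel)
    · exact key _ 4351 49232 (by norm_num) (by norm_num) (by norm_num) (by decide +kernel)
    · exact key _ 2367 28672 (by norm_num) (by norm_num) (by norm_num) (by decide +kernel)
    · exact key _ 71547 939008 (by norm_num) (by norm_num) (by norm_num) (by decide +kernel)
    · exact key _ 551231 7930880 (by norm_num) (by norm_num) (by norm_num) (by decide +kernel)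
  exact ⟨fun h => hneg (-4) (by norm_num) (by norm_num) (h (-4) (Or.inl (by norm_num))),
    hneg, hpos⟩

end Pool.Agent.Results.MP_6850eb_nt.NotInjective
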